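import Pool.Agent.CliqueQuery.Defs
import Pool.Agent.CliqueQuery.UpperMain
import Pool.Agent.CliqueQuery.LowerMain

/-!
# Finding large cliques in `G(n,1/2)` with few edge queries: `c* = 3/2`

The definitions used in the statement are in `Pool/Agent/CliqueQuery/Defs.lean`.
-/

namespace Pool.Agent.Results.MP_07f5c7_lc.CStar

open Pool.Agent.CliqueQuery

/-- The constant `c*` is `3/2`: cliques of size `c log₂ n` can be found with high probability with
`n (log n)^O(1)` queries when `0 ≤ c < 3/2`, and cannot when `c > 3/2`. -/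
theorem result : cStar = 3 / 2 ∧ (∀ c : ℝ, 0 ≤ c → c < 3 / 2 → Achievable c) ∧
    ∀ c : ℝ, 3 / 2 < c → ¬ Achievable c := by
  refine ⟨?_, fun c h0 h1 => achievable h0 h1, fun c h => not_achievable h⟩
  refine csSup_eq_of_forall_le_of_forall_lt_exists_gt
    ⟨0, le_rfl, achievable le_rfl (by norm_num)⟩ ?_ ?_
  · rintro c ⟨_, hc⟩
    by_contra hlt
    exact not_achievable (not_le.1 hlt) hc
  · intro w hw
    refine ⟨(max w 0 + 3 / 2) / 2, ⟨?_, ?_⟩, ?_⟩
    · have := le_max_right w 0
      linarith
    · refine achievable ?_ ?_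
      · have := le_max_right w 0
        linarith
      · have : max w 0 < 3 / 2 := max_lt hw (by norm_num)
        linarith
    · have : max w 0 < 3 / 2 := max_lt hw (by norm_num)
      have := le_max_left w 0
      linarith

end Pool.Agent.Results.MP_07f5c7_lc.CStar
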